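import Mathlib

set_option autoImplicit false

namespace Pool.Agent.FS.FifthTwo

open Finset
open scoped Classical

variable {V : Type} (G : SimpleGraph V) (M : ℕ)

/-- Domination. -/
def dom (D : Finset V) (x : V) : Prop := ∃ d ∈ D, d = x ∨ G.Adj d x

/-- The undominated part of `R` falls into pieces with fewer than `M` vertices. -/
def Good (R D : Finset V) : Prop :=
  ∀ x ∈ R, ¬ dom G D x → ∃ T : Finset V, x ∈ T ∧ T ⊆ R ∧ T.card < M ∧
    ∀ y ∈ T, ∀ y' ∈ R, ¬ dom G D y' → G.Adj y y' → y' ∈ T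

/-- A lump of eliminated vertices. -/
def Lump (W U : Finset V) (Γ : SimpleGraph V) (T : Finset V) : Prop :=
  T ⊆ U ∧ T.card < M ∧ (∀ y ∈ T, ∀ y' ∈ U, G.Adj y y' → y' ∈ T) ∧
    ∀ a ∈ W, ∀ b ∈ W, a ≠ b → (∃ y ∈ T, G.Adj y a) → (∃ y ∈ T, G.Adj y b) → Γ.Adj a b

/-- The invariant. -/
structure Inv (W U : Finset V) (Γ : SimpleGraph V) : Prop where
  disj : ∀ x ∈ W, x ∉ U
  real : ∀ a ∈ W, ∀ b ∈ W, G.Adj a b → Γ.Adj a b
  lump : ∀ x ∈ U, ∃ T, x ∈ T ∧ Lump G M W U Γ T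
  cnt : ∀ w ∈ W, (W.filter (Γ.Adj w)).card ≤ ((W ∪ U).filter (G.Adj w)).card
  deg : ∀ x ∈ W ∪ U, ((W ∪ U).filter (G.Adj x)).card ≤ 3
  two : ∀ x ∈ U, (W.filter fun w => G.Adj x w ∧ 3 ≤ (W.filter (Γ.Adj w)).card).card ≤ 2

/-- Vertices of degree three in the two-core. -/
noncomputable def K (W : Finset V) (Γ : SimpleGraph V) : Finset V :=
  W.filter fun w => ∃ C ⊆ W, w ∈ C ∧ (∀ x ∈ C, 2 ≤ (C.filter (Γ.Adj x)).card) ∧
    3 ≤ (C.filter (Γ.Adj w)).card

variable {G M}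

lemma dom_mono {D D' : Finset V} (h : D ⊆ D') {x : V} (hx : dom G D x) : dom G D' x := by
  obtain ⟨d, hd, h1⟩ := hx
  exact ⟨d, h hd, h1⟩

lemma Good.del {R S D : Finset V} {v : V} (hS : ∀ x ∈ S, v = x ∨ G.Adj v x)
    (h : Good G M (R \ S) D) : Good G M R (insert v D) := by
  have k : ∀ x ∈ R, ¬ dom G (insert v D) x → x ∈ R \ S ∧ ¬ dom G D x := fun x hx h1 =>
    ⟨mem_sdiff.2 ⟨hx, fun h2 => h1 ⟨v, mem_insert_self _ _, hS x h2⟩⟩,
      fun h2 => h1 (dom_mono (subset_insert _ _) h2)⟩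
  intro x hx h1
  obtain ⟨T, a, b, c, d⟩ := h x (k x hx h1).1 (k x hx h1).2
  exact ⟨T, a, b.trans sdiff_subset, c, fun y hy y' hy' h2 =>
    d y hy y' (k y' hy' h2).1 (k y' hy' h2).2⟩

lemma K_mono {W W' : Finset V} (Γ : SimpleGraph V) (h : W' ⊆ W) : K W' Γ ⊆ K W Γ := by
  intro w hw
  obtain ⟨h1, C, h2, h3⟩ := mem_filter.1 hw
  exact mem_filter.2 ⟨h h1, C, h2.trans h, h3⟩

lemma cnt_aux {W U U' S : Finset V} {Γ : SimpleGraph V} (h : Inv G M W U Γ) (hS : S ⊆ W)
    {w : V} (hw : w ∈ W \ S) (hU : ∀ y ∈ U, G.Adj w y → y ∈ U') :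
    ((W \ S).filter (Γ.Adj w)).card ≤ (((W \ S) ∪ U').filter (G.Adj w)).card := by
  have hw' := (mem_sdiff.1 hw).1
  have h1 := h.cnt w hw'
  have h2 : ((W \ S).filter (Γ.Adj w)).card + (S.filter (Γ.Adj w)).card ≤
      (W.filter (Γ.Adj w)).card := by
    rw [← card_union_of_disjoint (disjoint_filter_filter sdiff_disjoint)]
    refine card_le_card (union_subset (filter_subset_filter _ sdiff_subset)
      (filter_subset_filter _ hS))
  have h3 : ((W ∪ U).filter (G.Adj w)).card ≤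
      (((W \ S) ∪ U').filter (G.Adj w)).card + (S.filter (Γ.Adj w)).card := by
    refine (card_le_card ?_).trans (card_union_le _ _)
    intro y hy
    obtain ⟨a, b⟩ := mem_filter.1 hy
    by_cases c : y ∈ S
    · exact mem_union_right _ (mem_filter.2 ⟨c, h.real w hw' y (hS c) b⟩)
    · refine mem_union_left _ (mem_filter.2 ⟨?_, b⟩)
      rcases mem_union.1 a with a | a
      · exact mem_union_left _ (mem_sdiff.2 ⟨a, c⟩)
      · exact mem_union_right _ (hU y a b)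
  omega

lemma two_aux {W W' U : Finset V} {Γ Γ' : SimpleGraph V} (h : Inv G M W U Γ) (hW : W' ⊆ W)
    (hd : ∀ w ∈ W', (W'.filter (Γ'.Adj w)).card ≤ (W.filter (Γ.Adj w)).card) {x : V} (hx : x ∈ U) :
    (W'.filter fun w => G.Adj x w ∧ 3 ≤ (W'.filter (Γ'.Adj w)).card).card ≤ 2 := by
  refine (card_le_card fun w hw => ?_).trans (h.two x hx)
  obtain ⟨a, b, c⟩ := mem_filter.1 hw
  exact mem_filter.2 ⟨hW a, b, c.trans (hd w a)⟩

lemma Inv.del {W U S : Finset V} {Γ : SimpleGraph V} (h : Inv G M W U Γ) (hS : S ⊆ W) :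
    Inv G M (W \ S) U Γ where
  disj x hx := h.disj x (mem_sdiff.1 hx).1
  real a ha b hb := h.real a (mem_sdiff.1 ha).1 b (mem_sdiff.1 hb).1
  lump x hx := by
    obtain ⟨T, a, b, c, d, e⟩ := h.lump x hx
    exact ⟨T, a, b, c, d, fun p hp q hq => e p (mem_sdiff.1 hp).1 q (mem_sdiff.1 hq).1⟩
  cnt w hw := cnt_aux h hS hw fun _ a _ => a
  deg x hx := by
    have h1 : W \ S ∪ U ⊆ W ∪ U := union_subset_union_left sdiff_subset
    exact (card_le_card (filter_subset_filter _ h1)).trans (h.deg x (h1 hx))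
  two x hx := two_aux h sdiff_subset
    (fun _ _ => card_le_card (filter_subset_filter _ sdiff_subset)) hx

lemma Inv.sdiff {W U S : Finset V} {Γ : SimpleGraph V} (h : Inv G M W U Γ) (hS : S ⊆ W) :
    W \ S ∪ U = (W ∪ U) \ S := by
  ext x
  have := h.disj x
  have := @hS x
  simp only [mem_union, mem_sdiff]
  tauto

/-- Fill in a clique. -/
def fill (Γ : SimpleGraph V) (N : Finset V) : SimpleGraph V where
  Adj a b := Γ.Adj a b ∨ (a ≠ b ∧ a ∈ N ∧ b ∈ N)
  symm := ⟨fun _ _ h => h.elim (fun h => Or.inl h.symm) fun h => Or.inr ⟨h.1.symm, h.2.2, h.2.1⟩⟩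
  loopless := ⟨fun _ h => h.elim (fun h => h.ne rfl) fun h => h.1 rfl⟩

lemma fill_card {Γ : SimpleGraph V} {W C : Finset V} {z w : V} (hC : C ⊆ W.erase z)
    (hz : (W.filter (Γ.Adj z)).card ≤ 2 ∨
      ∀ a ∈ W.filter (Γ.Adj z), ∀ b ∈ W.filter (Γ.Adj z), a ≠ b → Γ.Adj a b) :
    (C.filter ((fill Γ (W.filter (Γ.Adj z))).Adj w)).card ≤
      ((insert z C).filter (Γ.Adj w)).card := by
  by_cases h : ∃ b ∈ C, (fill Γ (W.filter (Γ.Adj z))).Adj w b ∧ ¬ Γ.Adj w b
  · obtain ⟨b, hb, h1, h2⟩ := h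
    obtain ⟨h3, h4, h5⟩ := h1.resolve_left h2
    have h6 := hz.resolve_right fun k => h2 (k w h4 b h5 h3)
    have h7 : z ∉ C.filter (Γ.Adj w) := fun k => by simpa using hC (mem_filter.1 k).1
    rw [filter_insert, if_pos (mem_filter.1 h4).2.symm, card_insert_of_notMem h7]
    refine (card_le_card (t := insert b (C.filter (Γ.Adj w))) ?_).trans (card_insert_le _ _)
    intro y hy
    obtain ⟨a1, a2⟩ := mem_filter.1 hy
    rcases a2 with a2 | ⟨a2, -, a3⟩
    · exact mem_insert_of_mem (mem_filter.2 ⟨a1, a2⟩)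
    · by_cases a4 : y = b
      · exact a4 ▸ mem_insert_self _ _
      · have := two_lt_card.2 ⟨w, h4, y, a3, b, h5, a2, h3, a4⟩
        omega
  · refine card_le_card fun y hy => ?_
    obtain ⟨a1, a2⟩ := mem_filter.1 hy
    by_contra a3
    exact h ⟨y, a1, a2, fun k => a3 (mem_filter.2 ⟨mem_insert_of_mem a1, k⟩)⟩

lemma K_fill {Γ : SimpleGraph V} {W : Finset V} {z : V} (hzW : z ∈ W)
    (hz : (W.filter (Γ.Adj z)).card ≤ 2 ∨
      ∀ a ∈ W.filter (Γ.Adj z), ∀ b ∈ W.filter (Γ.Adj z), a ≠ b → Γ.Adj a b) :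
    K (W.erase z) (fill Γ (W.filter (Γ.Adj z))) ⊆ K W Γ := by
  intro w hw
  obtain ⟨h1, C, h2, h3, h4, h5⟩ := mem_filter.1 hw
  refine mem_filter.2 ⟨mem_of_mem_erase h1, ?_⟩
  by_cases h : 2 ≤ (C.filter (Γ.Adj z)).card
  · refine ⟨insert z C, insert_subset hzW (h2.trans (erase_subset _ _)), mem_insert_of_mem h3,
      fun x hx => ?_, h5.trans (fill_card h2 hz)⟩
    rcases mem_insert.1 hx with rfl | hx
    · exact h.trans (card_le_card (filter_subset_filter _ (subset_insert _ _)))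
    · exact (h4 x hx).trans (fill_card h2 hz)
  · have k : ∀ x ∈ C, C.filter ((fill Γ (W.filter (Γ.Adj z))).Adj x) ⊆ C.filter (Γ.Adj x) := by
      intro x hx y hy
      obtain ⟨a1, a2⟩ := mem_filter.1 hy
      refine mem_filter.2 ⟨a1, a2.resolve_right fun ⟨b1, b2, b3⟩ => h ?_⟩
      exact one_lt_card.2 ⟨x, mem_filter.2 ⟨hx, (mem_filter.1 b2).2⟩, y,
        mem_filter.2 ⟨a1, (mem_filter.1 b3).2⟩, b1⟩
    exact ⟨C, h2.trans (erase_subset _ _), h3, fun x hx => (h4 x hx).trans (card_le_card (k x hx)),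
      h5.trans (card_le_card (k w h3))⟩

lemma elim {W U : Finset V} {Γ : SimpleGraph V} (h : Inv G M W U Γ) {z : V} (hzW : z ∈ W)
    (hz : (W.filter (Γ.Adj z)).card ≤ 2 ∨
      ∀ a ∈ W.filter (Γ.Adj z), ∀ b ∈ W.filter (Γ.Adj z), a ≠ b → Γ.Adj a b) :
    ∃ W' U' Γ', Inv G M W' U' Γ' ∧ W' ⊆ W.erase z ∧ K W' Γ' ⊆ K W Γ ∧
      (W' ∪ U').card ≤ (W ∪ U).card ∧ ∀ D', Good G M (W' ∪ U') D' → ∃ D, Good G M (W ∪ U) D ∧
        M * D.card + 4 * (W' ∪ U').card ≤ M * D'.card + 4 * (W ∪ U).card := by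
  choose! L hL1 hL2 using h.lump
  set N := W.filter (Γ.Adj z) with hN
  let B0 := (U.filter (G.Adj z)).biUnion L
  have mB : ∀ y, y ∈ B0 ↔ ∃ x ∈ U, G.Adj z x ∧ y ∈ L x := fun y => by
    simp only [B0, mem_biUnion, mem_filter, and_assoc]
  have b1 : ∀ y ∈ B0, y ∈ U := fun y hy => by
    obtain ⟨x, a1, -, a3⟩ := (mB y).1 hy
    exact (hL2 x a1).1 a3
  have b2 : ∀ y ∈ B0, ∀ y' ∈ U, G.Adj y y' → y' ∈ B0 := fun y hy y' hy' k => by
    obtain ⟨x, a1, a2, a3⟩ := (mB y).1 hy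
    exact (mB y').2 ⟨x, a1, a2, (hL2 x a1).2.2.1 y a3 y' hy' k⟩
  have b3 : ∀ y ∈ U, G.Adj z y → y ∈ B0 := fun y hy k => (mB y).2 ⟨y, hy, k, hL1 y hy⟩
  have b4 : ∀ y ∈ B0, ∀ a ∈ W, G.Adj y a → a ∈ insert z N := fun y hy a ha k => by
    obtain ⟨x, a1, a2, a3⟩ := (mB y).1 hy
    by_cases e : z = a
    · exact e ▸ mem_insert_self _ _
    · exact mem_insert_of_mem (mem_filter.2 ⟨ha,
        (hL2 x a1).2.2.2 z hzW a ha e ⟨x, hL1 x a1, a2.symm⟩ ⟨y, a3, k⟩⟩)
  have hzU := h.disj z hzW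
  by_cases hB : (insert z B0).card < M
  · have e : W.erase z ∪ insert z U = W ∪ U := by
      ext x
      simp only [mem_union, mem_erase, mem_insert]
      by_cases k : x = z
      · simp [k, hzW]
      · simp [k]
    refine ⟨W.erase z, insert z U, fill Γ N, ⟨fun x hx k => ?_, fun a ha b hb k => ?_,
      fun x hx => ?_, fun w hw => ?_, by rw [e]; exact h.deg, fun x hx => ?_⟩, subset_rfl, K_fill hzW hz,
      by rw [e], fun D' hD => ⟨D', e ▸ hD, by rw [e]⟩⟩
    · rcases mem_insert.1 k with k | k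
      · exact (mem_erase.1 hx).1 k
      · exact h.disj x (mem_erase.1 hx).2 k
    · exact Or.inl (h.real a (mem_erase.1 ha).2 b (mem_erase.1 hb).2 k)
    · have cl : ∀ y ∈ insert z B0, ∀ y' ∈ insert z U, G.Adj y y' → y' ∈ insert z B0 := by
        intro y hy y' hy' k
        rcases mem_insert.1 hy' with e1 | e1
        · exact e1 ▸ mem_insert_self _ _
        · rcases mem_insert.1 hy with e2 | e2
          · exact mem_insert_of_mem (b3 y' e1 (e2 ▸ k))
          · exact mem_insert_of_mem (b2 y e2 y' e1 k)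
      by_cases hx' : x ∈ insert z B0
      · have nb : ∀ a ∈ W.erase z, (∃ y ∈ insert z B0, G.Adj y a) → a ∈ N := by
          rintro a ha ⟨y, hy, k⟩
          obtain ⟨a1, a2⟩ := mem_erase.1 ha
          rcases mem_insert.1 hy with rfl | hy
          · exact mem_filter.2 ⟨a2, h.real _ hzW a a2 k⟩
          · exact (mem_insert.1 (b4 y hy a a2 k)).resolve_left a1
        exact ⟨insert z B0, hx', insert_subset_insert _ b1, hB, cl,
          fun a ha b hb k k1 k2 => Or.inr ⟨k, nb a ha k1, nb b hb k2⟩⟩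
      · have hxU : x ∈ U := (mem_insert.1 hx).resolve_left fun k => hx' (k ▸ mem_insert_self _ _)
        obtain ⟨c1, c2, c3, c4⟩ := hL2 x hxU
        refine ⟨L x \ insert z B0, mem_sdiff.2 ⟨hL1 x hxU, hx'⟩,
          sdiff_subset.trans (c1.trans (subset_insert _ _)),
          (card_le_card sdiff_subset).trans_lt c2, fun y hy y' hy' k => ?_,
          fun a ha b hb k ⟨y, hy, k1⟩ ⟨y', hy', k2⟩ => Or.inl (c4 a (mem_erase.1 ha).2 b
            (mem_erase.1 hb).2 k ⟨y, (mem_sdiff.1 hy).1, k1⟩ ⟨y', (mem_sdiff.1 hy').1, k2⟩)⟩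
        obtain ⟨d1, d2⟩ := mem_sdiff.1 hy
        have d3 : y' ∉ insert z B0 := fun k' => d2 (cl y' k' y (mem_insert_of_mem (c1 d1)) k.symm)
        exact mem_sdiff.2 ⟨c3 y d1 y' ((mem_insert.1 hy').resolve_left
          fun k' => d3 (k' ▸ mem_insert_self _ _)) k, d3⟩
    · rw [e]
      refine ((fill_card subset_rfl hz).trans ?_).trans (h.cnt w (mem_erase.1 hw).2)
      rw [insert_erase hzW]
    · rcases mem_insert.1 hx with e1 | e1
      · rw [e1]
        rcases hz with hz | hz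
        · refine (card_le_card fun w hw => ?_).trans hz
          obtain ⟨a1, a2, -⟩ := mem_filter.1 hw
          exact mem_filter.2 ⟨(mem_erase.1 a1).2, h.real z hzW w (mem_erase.1 a1).2 a2⟩
        · refine (card_le_card (t := ∅) fun w hw => ?_).trans (by simp)
          obtain ⟨a1, a2, a3⟩ := mem_filter.1 hw
          have a4 := (mem_erase.1 a1).2
          have a5 := h.real z hzW w a4 a2
          have a6 : (W.erase z).filter ((fill Γ N).Adj w) ⊆ (W.filter (Γ.Adj w)).erase z := by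
            intro y hy
            obtain ⟨c1, c2⟩ := mem_filter.1 hy
            exact mem_erase.2 ⟨(mem_erase.1 c1).1, mem_filter.2 ⟨(mem_erase.1 c1).2,
              c2.elim id fun c3 => hz w c3.2.1 y c3.2.2 c3.1⟩⟩
          have a7 := card_le_card a6
          rw [card_erase_of_mem (mem_filter.2 ⟨hzW, a5.symm⟩)] at a7
          have a8 := (h.cnt w a4).trans (h.deg w (mem_union_left _ a4))
          omega
      · refine two_aux h (erase_subset _ _) (fun w _ => (fill_card subset_rfl hz).trans ?_) e1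
        rw [insert_erase hzW]
  · have hS : insert z N ⊆ W := insert_subset hzW (filter_subset _ _)
    have hN3 : N.card ≤ 3 := (h.cnt z hzW).trans (h.deg z (mem_union_left _ hzW))
    have sub : W \ insert z N ∪ U \ B0 ⊆ W ∪ U := union_subset_union sdiff_subset sdiff_subset
    have nb : ∀ w ∈ W \ insert z N, ∀ y ∈ U, G.Adj w y → y ∈ U \ B0 := fun w hw y hy k =>
      mem_sdiff.2 ⟨hy, fun k' => (mem_sdiff.1 hw).2 (b4 y k' w (mem_sdiff.1 hw).1 k.symm)⟩
    refine ⟨W \ insert z N, U \ B0, Γ, ⟨fun x hx k => h.disj x (mem_sdiff.1 hx).1 (mem_sdiff.1 k).1,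
      fun a ha b hb => h.real a (mem_sdiff.1 ha).1 b (mem_sdiff.1 hb).1, fun x hx => ?_,
      fun w hw => cnt_aux h hS hw (nb w hw),
      fun x hx => (card_le_card (filter_subset_filter _ sub)).trans (h.deg x (sub hx)),
      fun x hx => two_aux h sdiff_subset
        (fun _ _ => card_le_card (filter_subset_filter _ sdiff_subset)) (mem_sdiff.1 hx).1⟩,
      fun x hx => mem_erase.2 ⟨fun k => (mem_sdiff.1 hx).2 (k ▸ mem_insert_self _ _),
        (mem_sdiff.1 hx).1⟩, K_mono Γ sdiff_subset, card_le_card sub,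
      fun D' hD => ⟨D' ∪ insert z N, fun x hx k => ?_, ?_⟩⟩
    · obtain ⟨x1, x2⟩ := mem_sdiff.1 hx
      obtain ⟨c1, c2, c3, c4⟩ := hL2 x x1
      refine ⟨L x \ B0, mem_sdiff.2 ⟨hL1 x x1, x2⟩, sdiff_subset_sdiff c1 subset_rfl,
        (card_le_card sdiff_subset).trans_lt c2, fun y hy y' hy' k => mem_sdiff.2
          ⟨c3 y (mem_sdiff.1 hy).1 y' (mem_sdiff.1 hy').1 k, (mem_sdiff.1 hy').2⟩,
        fun a ha b hb k ⟨y, hy, k1⟩ ⟨y', hy', k2⟩ => c4 a (mem_sdiff.1 ha).1 b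
          (mem_sdiff.1 hb).1 k ⟨y, (mem_sdiff.1 hy).1, k1⟩ ⟨y', (mem_sdiff.1 hy').1, k2⟩⟩
    · have nd : ∀ y, ¬ dom G (D' ∪ insert z N) y → y ∉ insert z N ∧ ¬ dom G D' y := fun y k =>
        ⟨fun k' => k ⟨y, mem_union_right _ k', Or.inl rfl⟩,
          fun k' => k (dom_mono subset_union_left k')⟩
      by_cases hx' : x ∈ B0
      · obtain ⟨x0, a1, a2, a3⟩ := (mB x).1 hx'
        obtain ⟨c1, c2, c3, -⟩ := hL2 x0 a1
        refine ⟨L x0, a3, c1.trans subset_union_right, c2, fun y hy y' hy' k1 k2 => ?_⟩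
        rcases mem_union.1 hy' with hy' | hy'
        · exact absurd (b4 y ((mB y).2 ⟨x0, a1, a2, hy⟩) y' hy' k2) (nd y' k1).1
        · exact c3 y hy y' hy' k2
      · have mm : ∀ y ∈ W ∪ U, ¬ dom G (D' ∪ insert z N) y → y ∉ B0 →
            y ∈ W \ insert z N ∪ U \ B0 := fun y hy k1 k2 => by
          rcases mem_union.1 hy with hy | hy
          · exact mem_union_left _ (mem_sdiff.2 ⟨hy, (nd y k1).1⟩)
          · exact mem_union_right _ (mem_sdiff.2 ⟨hy, k2⟩)
        obtain ⟨T, a1, a2, a3, a4⟩ := hD x (mm x hx k hx') (nd x k).2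
        refine ⟨T, a1, a2.trans sub, a3, fun y hy y' hy' k1 k2 =>
          a4 y hy y' (mm y' hy' k1 fun k3 => ?_) (nd y' k1).2 k2⟩
        rcases mem_union.1 (a2 hy) with a5 | a5
        · exact (mem_sdiff.1 (nb y a5 y' (b1 y' k3) k2)).2 k3
        · exact (mem_sdiff.1 a5).2 (b2 y' k3 y (mem_sdiff.1 a5).1 k2.symm)
    · have c1 : (W \ insert z N ∪ U \ B0).card + (insert z B0).card ≤ (W ∪ U).card := by
        rw [← card_union_of_disjoint]
        · exact card_le_card (union_subset sub (insert_subset (mem_union_left _ hzW)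
            fun y hy => mem_union_right _ (b1 y hy)))
        · rw [disjoint_left]
          intro y hy k
          rcases mem_insert.1 k with rfl | k
          · rcases mem_union.1 hy with hy | hy
            · exact (mem_sdiff.1 hy).2 (mem_insert_self _ _)
            · exact hzU (mem_sdiff.1 hy).1
          · rcases mem_union.1 hy with hy | hy
            · exact h.disj y (mem_sdiff.1 hy).1 (b1 y k)
            · exact (mem_sdiff.1 hy).2 k
      have c2 : (D' ∪ insert z N).card ≤ D'.card + 4 :=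
        (card_union_le _ _).trans (by have := card_insert_le z N; omega)
      have c3 := Nat.mul_le_mul_left M c2
      rw [mul_add] at c3
      omega

end Pool.Agent.FS.FifthTwo
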